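import Mathlib

/-!
For every field `F` (of any characteristic) there are infinitely many pairwise non-isomorphic
finite-dimensional irreducible right alternative bimodules over `M₂(F)`.

Construction.  Let `Z` be a vector space with two endomorphisms `ξ, δ`, and put
`Λ = [[δ, ξ], [0, 0]]`, a `2 × 2` matrix over `End Z`.  On `M₂(Z)` set
`m · a = m ā` (with `ā = tr(a) - a` the adjugate of `a`) and `a · m = a m + [a, Λ] tr(m)`.
This is a right alternative bimodule, and it is irreducible as soon as `Z` has no proper nonzero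
subspace stable under `ξ` and `δ`.  With `Z = F^n`, `ξ` the cyclic shift and `δ` the projection to
one coordinate one gets an irreducible right alternative bimodule of dimension `4 n` for all
`n ≥ 1`.
-/

namespace Pool.Agent.Results.MP_cf4f28_al.InfinitelyMany

universe u

/-- The algebra `M₂(F)`. -/
abbrev A (F : Type u) [Field F] : Type u := Matrix (Fin 2) (Fin 2) F

/-- A bimodule over `A = M₂(F)`: a vector space `V` with bilinear maps
`l : A × V → V`, `(a, m) ↦ a m` and `r : V × A → V`, `(m, a) ↦ m a`. -/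
structure Bimod (F : Type u) [Field F] where
  V : Type u
  [acg : AddCommGroup V]
  [mod : Module F V]
  l : A F →ₗ[F] V →ₗ[F] V
  r : V →ₗ[F] A F →ₗ[F] V

attribute [instance] Bimod.acg Bimod.mod

namespace Bimod

variable {F : Type u} [Field F]

/-- The product of the split null extension `E = A ⊕ V`:
`(a + m)(b + n) = a b + (a n + m b)`. -/
def mulE (B : Bimod F) (x y : A F × B.V) : A F × B.V :=
  (x.1 * y.1, B.l x.1 y.2 + B.r x.2 y.1)

/-- `B` is a right alternative bimodule: its split null extension satisfies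
`(x y) y = x (y y)`. -/
def RightAlternative (B : Bimod F) : Prop :=
  ∀ x y : A F × B.V, B.mulE (B.mulE x y) y = B.mulE x (B.mulE y y)

/-- `B` is irreducible: it is nonzero and its only sub-bimodules are `0` and `B`. -/
def Irreducible (B : Bimod F) : Prop :=
  Nontrivial B.V ∧ ∀ N : Submodule F B.V,
    (∀ (a : A F), ∀ m ∈ N, B.l a m ∈ N ∧ B.r m a ∈ N) → N = ⊥ ∨ N = ⊤

/-- `B` and `C` are isomorphic bimodules. -/
def Iso (B C : Bimod F) : Prop :=
  ∃ φ : B.V ≃ₗ[F] C.V, ∀ (a : A F) (m : B.V),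
    φ (B.l a m) = C.l a (φ m) ∧ φ (B.r m a) = C.r (φ m) a

end Bimod

section construction

variable {F : Type u} [Field F] {Z : Type u} [AddCommGroup Z] [Module F Z]

/-- The left action `a · m = a m + [a, Λ] tr(m)` on `M₂(Z)`; the matrix `[[x, y], [z, w]]` is
written `(x, y, z, w)`. -/
def lact (ξ δ : Z →ₗ[F] Z) : A F →ₗ[F] (Z × Z × Z × Z) →ₗ[F] (Z × Z × Z × Z) :=
  LinearMap.mk₂ F
    (fun a m =>
      (a 0 0 • m.1 + a 0 1 • m.2.2.1 - a 1 0 • ξ (m.1 + m.2.2.2),
       a 0 0 • m.2.1 + a 0 1 • m.2.2.2 + (a 0 0 - a 1 1) • ξ (m.1 + m.2.2.2)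
          - a 0 1 • δ (m.1 + m.2.2.2),
       a 1 0 • m.1 + a 1 1 • m.2.2.1 + a 1 0 • δ (m.1 + m.2.2.2),
       a 1 0 • m.2.1 + a 1 1 • m.2.2.2 + a 1 0 • ξ (m.1 + m.2.2.2)))
    (by
      intro a b m
      ext <;> simp <;> module)
    (by
      intro c a m
      ext <;> simp <;> module)
    (by
      intro a m n
      ext <;> simp <;> module)
    (by
      intro c a m
      ext <;> simp <;> module)

/-- The right action `m · a = m ā` on `M₂(Z)`, where `ā = [[a₁₁, -a₀₁], [-a₁₀, a₀₀]]`. -/
def ract : (Z × Z × Z × Z) →ₗ[F] A F →ₗ[F] (Z × Z × Z × Z) :=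
  LinearMap.mk₂ F
    (fun m a =>
      (a 1 1 • m.1 - a 1 0 • m.2.1,
       a 0 0 • m.2.1 - a 0 1 • m.1,
       a 1 1 • m.2.2.1 - a 1 0 • m.2.2.2,
       a 0 0 • m.2.2.2 - a 0 1 • m.2.2.1))
    (by
      intro m n a
      ext <;> simp <;> module)
    (by
      intro c m a
      ext <;> simp <;> module)
    (by
      intro m a b
      ext <;> simp <;> module)
    (by
      intro c m a
      ext <;> simp <;> module)

/-- The bimodule `M₂(Z)` attached to `(Z; ξ, δ)`. -/
def bim (ξ δ : Z →ₗ[F] Z) : Bimod F where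
  V := Z × Z × Z × Z
  l := lact ξ δ
  r := ract

theorem ra_aux (ξ δ : Z →ₗ[F] Z) (a b : A F) (m n : Z × Z × Z × Z) :
    lact ξ δ (a * b) n + ract (lact ξ δ a n + ract m b) b =
      lact ξ δ a (lact ξ δ b n + ract n b) + ract m (b * b) := by
  obtain ⟨x, y, z, w⟩ := m
  obtain ⟨x', y', z', w'⟩ := n
  simp only [lact, ract, LinearMap.mk₂_apply, Prod.mk_add_mk, map_add, map_sub,
    map_smul, Matrix.mul_apply, Fin.sum_univ_two]
  refine Prod.ext ?_ (Prod.ext ?_ (Prod.ext ?_ ?_)) <;> dsimp only <;> module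

theorem bim_rightAlternative (ξ δ : Z →ₗ[F] Z) : (bim ξ δ).RightAlternative := by
  rintro ⟨a, m⟩ ⟨b, n⟩
  exact Prod.ext (mul_assoc a b b) (ra_aux ξ δ a b m n)

theorem irr_aux (ξ δ : Z →ₗ[F] Z)
    (h : ∀ X : Submodule F Z, (∀ z ∈ X, ξ z ∈ X ∧ δ z ∈ X) → X = ⊥ ∨ X = ⊤)
    (N : Submodule F (Z × Z × Z × Z))
    (hN : ∀ (a : A F), ∀ m ∈ N, lact ξ δ a m ∈ N ∧ ract m a ∈ N) : N = ⊥ ∨ N = ⊤ := by
  have hl : ∀ (a : A F) (m : Z × Z × Z × Z), m ∈ N → lact ξ δ a m ∈ N :=
    fun a m hm => (hN a m hm).1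
  have hr : ∀ (a : A F) (m : Z × Z × Z × Z), m ∈ N → ract m a ∈ N :=
    fun a m hm => (hN a m hm).2
  -- the subspace `X = {z | E₀₀ z ∈ N}`
  let X : Submodule F Z :=
    { carrier := {z | ((z, 0, 0, 0) : Z × Z × Z × Z) ∈ N}
      add_mem' := by
        intro a b ha hb
        have := N.add_mem ha hb
        simpa using this
      zero_mem' := N.zero_mem
      smul_mem' := by
        intro c a ha
        have := N.smul_mem c ha
        simpa using this }
  have hX : ∀ z, z ∈ X ↔ ((z, 0, 0, 0) : Z × Z × Z × Z) ∈ N := fun z => Iff.rfl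
  -- right multiplications
  have r1 : ∀ m : Z × Z × Z × Z, m ∈ N → (m.1, (0 : Z), m.2.2.1, (0 : Z)) ∈ N := by
    intro m hm
    have := hr !![0, 0; 0, 1] m hm
    simpa [ract] using this
  have r2 : ∀ m : Z × Z × Z × Z, m ∈ N → (m.2.1, (0 : Z), m.2.2.2, (0 : Z)) ∈ N := by
    intro m hm
    have := N.neg_mem (hr !![0, 0; 1, 0] m hm)
    simpa [ract] using this
  have r3 : ∀ m : Z × Z × Z × Z, m ∈ N → ((0 : Z), m.1, (0 : Z), m.2.2.1) ∈ N := by
    intro m hm
    have := N.neg_mem (hr !![0, 1; 0, 0] m hm)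
    simpa [ract] using this
  -- left multiplications
  have e01 : ∀ m : Z × Z × Z × Z, m ∈ N →
      (m.2.2.1, m.2.2.2 - δ (m.1 + m.2.2.2), (0 : Z), (0 : Z)) ∈ N := by
    intro m hm
    have := hl !![0, 1; 0, 0] m hm
    simpa [lact] using this
  have hz : ∀ m : Z × Z × Z × Z, m ∈ N → m.2.2.1 ∈ X := by
    intro m hm
    have := r1 _ (e01 m hm)
    simpa [hX] using this
  have key : ∀ z ∈ X, ξ z ∈ X ∧ δ z ∈ X := by
    intro z hzX
    have h0 : ((z, 0, 0, 0) : Z × Z × Z × Z) ∈ N := hzX
    constructor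
    · have h1 := r2 _ (hl !![1, 0; 0, 0] _ h0)
      simpa [lact, hX] using h1
    · have h1 := r2 _ (N.neg_mem (hl !![0, 1; 0, 0] _ h0))
      simpa [lact, hX] using h1
  rcases h X key with hbot | htop
  · left
    rw [Submodule.eq_bot_iff]
    rintro ⟨x, y, z, w⟩ hm
    have hz' : z = 0 := by
      have := hz _ hm
      rw [hbot] at this
      simpa using this
    have hw' : w = 0 := by
      have := hz _ (r2 _ hm)
      rw [hbot] at this
      simpa using this
    subst hz' hw'
    have hx' : x = 0 := by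
      have h1 := r1 _ hm
      have : x ∈ X := h1
      rw [hbot] at this
      simpa using this
    have hy' : y = 0 := by
      have h1 := r2 _ hm
      have : y ∈ X := h1
      rw [hbot] at this
      simpa using this
    rw [hx', hy']
    rfl
  · right
    rw [Submodule.eq_top_iff']
    have c0 : ∀ z : Z, ((z, 0, 0, 0) : Z × Z × Z × Z) ∈ N := by
      intro z
      have : z ∈ X := by rw [htop]; trivial
      exact this
    have c1 : ∀ z : Z, ((0, z, 0, 0) : Z × Z × Z × Z) ∈ N := by
      intro z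
      have := r3 _ (c0 z)
      simpa using this
    have c3 : ∀ z : Z, ((0, 0, 0, z) : Z × Z × Z × Z) ∈ N := by
      intro z
      have := hl !![0, 0; 1, 0] _ (c1 z)
      simpa [lact] using this
    have c2 : ∀ z : Z, ((0, 0, z, 0) : Z × Z × Z × Z) ∈ N := by
      intro z
      have := r2 _ (c3 z)
      simpa using this
    rintro ⟨x, y, z, w⟩
    have := N.add_mem (N.add_mem (c0 x) (c1 y)) (N.add_mem (c2 z) (c3 w))
    simpa using this

theorem bim_irreducible [Nontrivial Z] (ξ δ : Z →ₗ[F] Z)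
    (h : ∀ X : Submodule F Z, (∀ z ∈ X, ξ z ∈ X ∧ δ z ∈ X) → X = ⊥ ∨ X = ⊤) :
    (bim ξ δ).Irreducible :=
  ⟨inferInstanceAs (Nontrivial (Z × Z × Z × Z)), irr_aux ξ δ h⟩

end construction

section cyclic

variable (F : Type u) [Field F] (n : ℕ)

/-- The cyclic shift on `F^(n+1)`, coordinates indexed by `ZMod (n + 1)`. -/
def shift : (ZMod (n + 1) → F) →ₗ[F] (ZMod (n + 1) → F) where
  toFun f := fun i => f (i + 1)
  map_add' _ _ := rfl
  map_smul' _ _ := rfl

/-- The projection of `F^(n+1)` to the zeroth coordinate line. -/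
def proj : (ZMod (n + 1) → F) →ₗ[F] (ZMod (n + 1) → F) where
  toFun f := Pi.single 0 (f 0)
  map_add' f g := by simp [Pi.single_add]
  map_smul' c f := by simp [← Pi.single_smul]

theorem cyclic_irreducible (X : Submodule F (ZMod (n + 1) → F))
    (hX : ∀ z ∈ X, shift F n z ∈ X ∧ proj F n z ∈ X) : X = ⊥ ∨ X = ⊤ := by
  rw [or_iff_not_imp_left]
  intro hne
  obtain ⟨v, hv, hv0⟩ := Submodule.exists_mem_ne_zero_of_ne_bot hne
  have hsh : ∀ (k : ℕ) (z : ZMod (n + 1) → F), z ∈ X →
      (fun j => z (j + (k : ZMod (n + 1)))) ∈ X := by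
    intro k
    induction k with
    | zero =>
      intro z hz
      simpa using hz
    | succ k ih =>
      intro z hz
      have h1 := (hX _ (ih z hz)).1
      have h2 : shift F n (fun j => z (j + (k : ZMod (n + 1)))) =
          fun j => z (j + ((k + 1 : ℕ) : ZMod (n + 1))) := by
        funext j
        simp only [shift, LinearMap.coe_mk, AddHom.coe_mk]
        congr 1
        push_cast
        ring
      rwa [h2] at h1
  obtain ⟨i, hi⟩ : ∃ i, v i ≠ 0 := by
    by_contra hcon
    exact hv0 (funext fun i => by_contra fun h => hcon ⟨i, h⟩)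
  have h0 : (Pi.single 0 (1 : F) : ZMod (n + 1) → F) ∈ X := by
    have h1 := (hX _ (hsh i.val v hv)).2
    have h2 : proj F n (fun j => v (j + ((i.val : ℕ) : ZMod (n + 1)))) =
        Pi.single 0 (v i) := by
      simp [proj]
    rw [h2] at h1
    have h3 := X.smul_mem (v i)⁻¹ h1
    rwa [← Pi.single_smul, smul_eq_mul, inv_mul_cancel₀ hi] at h3
  have hall : ∀ j : ZMod (n + 1), (Pi.single j (1 : F) : ZMod (n + 1) → F) ∈ X := by
    intro j
    have h1 := hsh (-j : ZMod (n + 1)).val _ h0
    have h2 : (fun k => (Pi.single 0 (1 : F) : ZMod (n + 1) → F)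
        (k + (((-j : ZMod (n + 1)).val : ℕ) : ZMod (n + 1)))) = Pi.single j (1 : F) := by
      funext k
      rw [ZMod.natCast_zmod_val]
      by_cases hk : k = j
      · subst hk
        simp
      · have hk' : k + -j ≠ 0 := by
          intro hh
          apply hk
          have := eq_neg_of_add_eq_zero_left hh
          simpa using this
        rw [Pi.single_eq_of_ne hk, Pi.single_eq_of_ne hk']
    rwa [h2] at h1
  rw [Submodule.eq_top_iff']
  intro z
  have hz : z = ∑ j, z j • (Pi.single j (1 : F) : ZMod (n + 1) → F) := by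
    funext k
    simp [Finset.sum_apply, Pi.single_apply]
  rw [hz]
  exact X.sum_mem fun j _ => X.smul_mem _ (hall j)

end cyclic

/-- **Main theorem.**  Over every field `F` there is a sequence of pairwise non-isomorphic
finite-dimensional irreducible right alternative bimodules over `M₂(F)`; moreover the `n`-th one
has dimension `4 (n + 1)`. -/
theorem result (F : Type u) [Field F] :
    ∃ B : ℕ → Bimod F,
      (∀ n, (B n).RightAlternative ∧ (B n).Irreducible ∧ FiniteDimensional F (B n).V ∧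
        Module.finrank F (B n).V = 4 * (n + 1)) ∧
      ∀ m n, m ≠ n → ¬ (B m).Iso (B n) := by
  have hfd : ∀ n, FiniteDimensional F (bim (shift F n) (proj F n)).V := fun n =>
    inferInstanceAs (FiniteDimensional F ((ZMod (n + 1) → F) × (ZMod (n + 1) → F) ×
      (ZMod (n + 1) → F) × (ZMod (n + 1) → F)))
  have hrk : ∀ n, Module.finrank F (bim (shift F n) (proj F n)).V = 4 * (n + 1) := by
    intro n
    have h : Module.finrank F ((ZMod (n + 1) → F) × (ZMod (n + 1) → F) ×
      (ZMod (n + 1) → F) × (ZMod (n + 1) → F)) = 4 * (n + 1) := by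
      simp only [Module.finrank_prod, Module.finrank_fintype_fun_eq_card, ZMod.card]
      ring
    exact h
  refine ⟨fun n => bim (shift F n) (proj F n), ?_, ?_⟩
  · intro n
    exact ⟨bim_rightAlternative _ _, bim_irreducible _ _ (cyclic_irreducible F n), hfd n, hrk n⟩
  · rintro m n hmn ⟨φ, -⟩
    have h := φ.finrank_eq
    rw [hrk m, hrk n] at h
    omega

end Pool.Agent.Results.MP_cf4f28_al.InfinitelyMany
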